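import Pool.Agent.H87.Rank.Count

/-!
MP_81dc49: an exact symmetry of the ranks of elliptic curves over `k`, ordered by height, and over
the quadratic extension `K = k(√ζ)`, where `ζ` is a root of unity of `k` that is not a square in
`k` (for `k = ℚ`: `K = ℚ(i)`).
-/

open Pool.Agent.H87.Rank

namespace Pool.Agent.Results.MP_81dc49_nt.TwistSymmetry

/-- the absolute multiplicative Weil height on a number field -/
noncomputable def weilHeight (k : Type) [Field k] [NumberField k] (x : k) : ℝ :=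
  (Height.mulHeight₁ x) ^ ((Module.finrank ℚ k : ℝ)⁻¹)

section

variable {k : Type} [Field k] [NumberField k]

theorem mulHeight_mul {ζ : k} {n : ℕ} (hn : 0 < n) (hζ : ζ ^ n = 1) (x : k) :
    Height.mulHeight₁ (ζ * x) = Height.mulHeight₁ x := by
  have hv : ∀ v : AbsoluteValue k ℝ, v (ζ * x) = v x := by
    intro v
    have h1 : v ζ ^ n = 1 := by rw [← map_pow, hζ, map_one]
    have h2 : v ζ = 1 := (pow_eq_one_iff_of_nonneg (v.nonneg ζ) hn.ne').1 h1
    rw [map_mul, h2, one_mul]
  rw [Height.mulHeight₁_eq, Height.mulHeight₁_eq]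
  simp only [hv]

theorem weilHeight_mul {ζ : k} {n : ℕ} (hn : 0 < n) (hζ : ζ ^ n = 1) (x : k) :
    weilHeight k (ζ * x) = weilHeight k x := by
  unfold weilHeight
  rw [mulHeight_mul hn hζ]

theorem weilHeight_finite (B : ℝ) : {x : k | weilHeight k x ≤ B}.Finite := by
  have hd : (0 : ℝ) < Module.finrank ℚ k := by
    exact_mod_cast Module.finrank_pos
  refine (NumberField.finite_setOfPred_mulHeight₁_le (K := k)
    (B ^ (Module.finrank ℚ k : ℝ))).subset ?_
  intro x hx
  have h0 : 0 ≤ Height.mulHeight₁ x := (Height.mulHeight₁_pos x).le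
  have h1 : weilHeight k x ≤ B := hx
  show Height.mulHeight₁ x ≤ B ^ (Module.finrank ℚ k : ℝ)
  have h2 : (weilHeight k x) ^ (Module.finrank ℚ k : ℝ) = Height.mulHeight₁ x := by
    unfold weilHeight
    rw [← Real.rpow_mul h0, inv_mul_cancel₀ hd.ne', Real.rpow_one]
  rw [← h2]
  exact Real.rpow_le_rpow (Real.rpow_nonneg h0 _) h1 hd.le

/-- a number field contains a root of unity that is not a square -/
theorem exists_root : ∃ ζ : k, (∃ n, 0 < n ∧ ζ ^ n = 1) ∧ ¬ IsSquare ζ := by
  by_contra hcon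
  push Not at hcon
  let T : Set k := {x | ∃ n, 0 < n ∧ x ^ n = 1}
  have hT : T.Finite := by
    refine (weilHeight_finite (k := k) (weilHeight k 1)).subset ?_
    rintro x ⟨n, hn, hx⟩
    show weilHeight k x ≤ weilHeight k 1
    have := weilHeight_mul hn hx (1 : k)
    rw [mul_one] at this
    exact this.le
  have hmaps : Set.MapsTo (fun x : k => x ^ 2) T T := by
    rintro x ⟨n, hn, hx⟩
    refine ⟨n, hn, ?_⟩
    show (x ^ 2) ^ n = 1
    rw [← pow_mul, mul_comm, pow_mul, hx, one_pow]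
  have hsurj : Set.SurjOn (fun x : k => x ^ 2) T T := by
    rintro x ⟨n, hn, hx⟩
    obtain ⟨y, hy⟩ := hcon x ⟨n, hn, hx⟩
    refine ⟨y, ⟨2 * n, by positivity, ?_⟩, ?_⟩
    · rw [pow_mul, sq, ← hy, hx]
    · show y ^ 2 = x
      rw [sq, hy]
  have hinj : Set.InjOn (fun x : k => x ^ 2) T := by
    have := (hT.injOn_iff_bijOn_of_mapsTo hmaps)
    exact (Set.Finite.surjOn_iff_bijOn_of_mapsTo hT hmaps |>.1 hsurj).injOn
  have h1 : (1 : k) ∈ T := ⟨1, one_pos, by simp⟩
  have h2 : (-1 : k) ∈ T := ⟨2, two_pos, by ring⟩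
  have h3 : (-1 : k) = 1 := hinj h2 h1 (by show (-1 : k) ^ 2 = 1 ^ 2; ring)
  have h4 : (2 : k) = 0 := by linear_combination (-1 : k) * h3
  exact two_ne_zero h4

end

/-- **Exact twist symmetry of ranks.**
(A) for fields `k ⊂ K = k(√ζ)`, `[K : k] = 2`, `char k ≠ 2`, and every height function `H` on `k`
with finite sublevel sets and `H (ζ x) = H x`;
(B) for every number field `k` with the absolute Weil height: there is a root of unity `ζ` in `k`,
not a square in `k`, and the symmetry holds for `K = k(√ζ)`. -/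
theorem result :
    (∀ (k K : Type) [Field k] [Field K] [Algebra k K] [Algebra.IsQuadraticExtension k K]
      (ζ : k) (s : K) (H : k → ℝ), (2 : k) ≠ 0 → ¬ IsSquare ζ → s ^ 2 = algebraMap k K ζ →
      (∀ x, H (ζ * x) = H x) → (∀ B, {x | H x ≤ B}.Finite) → TwistSymmetric k K H) ∧
    (∀ (k : Type) [Field k] [NumberField k], ∃ ζ : k, (∃ n, 0 < n ∧ ζ ^ n = 1) ∧ ¬ IsSquare ζ ∧
      ∀ (K : Type) [Field K] [Algebra k K] [Algebra.IsQuadraticExtension k K] (s : K),
        s ^ 2 = algebraMap k K ζ → TwistSymmetric k K (weilHeight k)) := by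
  constructor
  · intro k K _ _ _ _ ζ s H h2 hζ hs hH hfin
    exact twistSymmetric h2 hζ hs hH hfin
  · intro k _ _
    obtain ⟨ζ, ⟨n, hn, hζn⟩, hζ⟩ := exists_root (k := k)
    refine ⟨ζ, ⟨n, hn, hζn⟩, hζ, ?_⟩
    intro K _ _ _ s hs
    exact twistSymmetric two_ne_zero hζ hs (weilHeight_mul hn hζn) weilHeight_finite

end Pool.Agent.Results.MP_81dc49_nt.TwistSymmetry
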